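import Mathlib
import Pool.Agent.H469Z.TraceDefs
import Pool.Agent.H469Z.TraceQ2Proof

set_option autoImplicit false

namespace Pool.Agent.Results.MP_f5ee21_nt.NotQ2

open H469Z.TraceQ2

/-- Q2 is false: the multiplicity lower bound fails for some alphabet of dimension above `1/2`. -/
theorem result :
    ¬ ∀ A : Finset ℕ, (∀ a ∈ A, 1 ≤ a) → 2 ≤ A.card → 1 / 2 < delta A →
      ∀ ε : ℝ, 0 < ε → ∃ N₀ : ℕ, ∀ N : ℕ, N₀ ≤ N → ∀ t : ℤ, Admissible A t →
        (N : ℤ) ≤ t → t < 2 * (N : ℤ) →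
        ENNReal.ofReal ((N : ℝ) ^ (2 * delta A - 1 - ε)) < (mult A t : ENNReal) :=
  notQ2

end Pool.Agent.Results.MP_f5ee21_nt.NotQ2
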